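import Pool.Agent.U987.BI.Euc

/-!
# Mollification of homeomorphisms with small local distortion
-/

set_option autoImplicit false
set_option linter.unusedSectionVars false

open Set Filter Topology Metric Function MeasureTheory
open scoped Manifold ContDiff NNReal Convolution

noncomputable section

namespace Pool.Agent.U987.BE

open Pool.Agent.Y522 Pool.Agent.U987.BI
open Pool.Agent.U211.BL (Ker exists_ker compactSupport_of LD_of_pos)

variable {n : ℕ}

/-- the local condition -/
def Loc (ρ : ℝ) (f : E n → E n) : Prop := ∀ x, ∃ r > 0, ∃ a > 0, ∀ p ∈ ball x r, ∀ q ∈ ball x r,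
  a * ‖p - q‖ ≤ ‖f p - f q‖ ∧ ‖f p - f q‖ ≤ ρ * (a * ‖p - q‖)

theorem Loc.cont {ρ : ℝ} (hρ : 1 ≤ ρ) {f : E n → E n} (hf : Loc ρ f) : Continuous f := by
  rw [continuous_iff_continuousAt]
  intro x
  obtain ⟨r, hr, a, ha, h⟩ := hf x
  rw [Metric.continuousAt_iff]
  intro ε hε
  refine ⟨min r (ε / (ρ * a)), lt_min hr (by positivity), fun {y} hy => ?_⟩
  have h1 : y ∈ ball x r := (lt_of_lt_of_le hy (min_le_left _ _))
  have h2 : ‖y - x‖ < ε / (ρ * a) := by
    rw [← dist_eq_norm]
    exact lt_of_lt_of_le hy (min_le_right _ _)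
  rw [dist_eq_norm]
  refine lt_of_le_of_lt (h y h1 x (mem_ball_self hr)).2 ?_
  rw [lt_div_iff₀ (by positivity)] at h2
  calc ρ * (a * ‖y - x‖) = ‖y - x‖ * (ρ * a) := by ring
    _ < ε := h2

/-- uniform constants -/
theorem uniform (hn : 0 < n) {ρ R : ℝ} (hρ : 1 ≤ ρ) {f : E n → E n}
    (hR : ∀ x, R ≤ ‖x‖ → f x = x) (hf : Loc ρ f) :
    ∃ δ₀ Λ : ℝ, 0 < δ₀ ∧ 0 ≤ Λ ∧ (∀ z, ∃ a > 0, ∀ p ∈ ball z δ₀, ∀ q ∈ ball z δ₀,
      a * ‖p - q‖ ≤ ‖f p - f q‖ ∧ ‖f p - f q‖ ≤ ρ * (a * ‖p - q‖)) ∧
      ∀ x y, ‖f x - f y‖ ≤ Λ * ‖x - y‖ := by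
  have hc := hf.cont hρ
  choose r hr a ha h using hf
  obtain ⟨δ₁, hδ₁, hL⟩ := lebesgue_number_lemma_of_metric (isCompact_closedBall (0 : E n) (R + 1))
    (c := fun x : E n => ball x (r x)) (fun x => isOpen_ball) (fun x _ =>
      mem_iUnion.2 ⟨x, mem_ball_self (hr x)⟩)
  obtain ⟨δ₀, hδ₀⟩ : ∃ δ₀, δ₀ = min δ₁ 1 := ⟨_, rfl⟩
  have hδp : 0 < δ₀ := by rw [hδ₀]; exact lt_min hδ₁ one_pos
  have hloc : ∀ z, ∃ a > 0, ∀ p ∈ ball z δ₀, ∀ q ∈ ball z δ₀,
      a * ‖p - q‖ ≤ ‖f p - f q‖ ∧ ‖f p - f q‖ ≤ ρ * (a * ‖p - q‖) := by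
    intro z
    by_cases hz : z ∈ closedBall (0 : E n) (R + 1)
    · obtain ⟨i, hi⟩ := hL z hz
      have hsub : ball z δ₀ ⊆ ball i (r i) :=
        (ball_subset_ball (by rw [hδ₀]; exact min_le_left _ _)).trans hi
      exact ⟨a i, ha i, fun p hp q hq => h i p (hsub hp) q (hsub hq)⟩
    · rw [mem_closedBall_zero_iff, not_le] at hz
      have hid : ∀ p ∈ ball z δ₀, f p = p := by
        intro p hp
        apply hR
        have h1 : ‖p - z‖ < 1 := by
          rw [← dist_eq_norm]
          exact lt_of_lt_of_le hp (by rw [hδ₀]; exact min_le_right _ _)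
        have h2 := norm_sub_norm_le z p
        rw [norm_sub_rev] at h2
        linarith
      refine ⟨1, one_pos, fun p hp q hq => ?_⟩
      rw [hid p hp, hid q hq, one_mul]
      exact ⟨le_rfl, le_mul_of_one_le_left (norm_nonneg _) hρ⟩
  obtain ⟨M, hM⟩ := (isCompact_closedBall (0 : E n) R).exists_bound_of_continuousOn
    (hc.sub continuous_id).continuousOn
  have hMf : ∀ x, ‖f x - x‖ ≤ |M| := by
    intro x
    rcases le_total R ‖x‖ with h1 | h1
    · rw [hR x h1, sub_self, norm_zero]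
      exact abs_nonneg M
    · exact (hM x (by rwa [mem_closedBall_zero_iff])).trans (le_abs_self M)
  have hdisp : ∀ x y, ‖f x - f y‖ ≤ ‖x - y‖ + 2 * |M| := by
    intro x y
    have h1 : f x - f y = (x - y) + ((f x - x) - (f y - y)) := by abel
    rw [h1]
    have h2 := norm_add_le (x - y) ((f x - x) - (f y - y))
    have h3 := norm_sub_le (f x - x) (f y - y)
    have h4 := hMf x
    have h5 := hMf y
    linarith
  obtain ⟨A, hA⟩ : ∃ A, A = 1 + 2 * |M| / δ₀ * 2 := ⟨_, rfl⟩
  have hA0 : 0 ≤ A := by rw [hA]; positivity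
  have hA1 : 1 ≤ A := by
    rw [hA]
    have : 0 ≤ 2 * |M| / δ₀ * 2 := by positivity
    linarith
  refine ⟨δ₀, ρ * A, hδp, by positivity, hloc, fun x y => ?_⟩
  rcases lt_or_ge ‖x - y‖ δ₀ with hxy | hxy
  · obtain ⟨b, hb, hb'⟩ := hloc x
    -- bound for the factor
    have : Nontrivial (E n) := by
      have : Nonempty (Fin n) := ⟨⟨0, hn⟩⟩
      infer_instance
    obtain ⟨u, hu⟩ := exists_norm_eq (E n) (zero_le_one (α := ℝ))
    have h1 : x + (δ₀ / 2) • u ∈ ball x δ₀ := by
      rw [mem_ball, dist_eq_norm, add_sub_cancel_left, norm_smul, hu,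
        Real.norm_of_nonneg (by positivity)]
      linarith
    have h2 := (hb' _ h1 x (mem_ball_self hδp)).1
    have h3 := hdisp (x + (δ₀ / 2) • u) x
    rw [add_sub_cancel_left, norm_smul, hu, Real.norm_of_nonneg (by positivity), mul_one]
      at h2 h3
    have h4 : b ≤ A := by
      have h5 : b * (δ₀ / 2) ≤ A * (δ₀ / 2) := by
        refine h2.trans (h3.trans (le_of_eq ?_))
        rw [hA]
        field_simp
      exact le_of_mul_le_mul_right h5 (by positivity)
    have h6 := (hb' x (mem_ball_self hδp) y (by rw [mem_ball, dist_eq_norm, norm_sub_rev]; exact hxy)).2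
    refine h6.trans ?_
    rw [mul_assoc]
    gcongr
  · have h1 := hdisp x y
    have h2 : 2 * |M| ≤ 2 * |M| / δ₀ * 2 * ‖x - y‖ := by
      have h3 : 2 * |M| / δ₀ * δ₀ = 2 * |M| := by field_simp
      have h4 : 0 ≤ 2 * |M| / δ₀ := by positivity
      nlinarith
    have h3 : ‖f x - f y‖ ≤ A * ‖x - y‖ := by
      rw [hA]
      nlinarith
    refine h3.trans ?_
    rw [mul_assoc]
    exact le_mul_of_one_le_left (by positivity) hρ

variable {θ : ℝ} (K : Ker n θ)

/-- the mollified map -/
def ff (f : E n → E n) (r : ℝ) (x : E n) : E n := ∫ s, K.k s • f (x + r • s)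

theorem k_int {f : E n → E n} (hf : Continuous f) (x : E n) (r : ℝ) :
    Integrable fun s => K.k s • f (x + r • s) := by
  apply Continuous.integrable_of_hasCompactSupport
  · exact K.cont.smul (by fun_prop)
  · exact (compactSupport_of fun s hs => K.zero s hs.le).smul_right

theorem ff_smooth {f : E n → E n} (hf : Continuous f) {r : ℝ} (hr : 0 < r) :
    ContDiff ℝ ∞ (ff K f r) := by
  have h1 : ff K f r = (f ⋆[Pool.Agent.U211.BLV.LL n, volume] Pool.Agent.U211.BL.gk K r) := by
    funext y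
    exact Pool.Agent.U211.BLV.moll_conv K f y hr
  rw [h1]
  exact (Pool.Agent.U211.BL.gk_supp K hr).contDiff_convolution_right _
    (hf.locallyIntegrable) (Pool.Agent.U211.BL.gk_smooth K)

theorem ff_close {f : E n → E n} (hf : Continuous f) {Λ : ℝ}
    (hL : ∀ x y, ‖f x - f y‖ ≤ Λ * ‖x - y‖) (hΛ : 0 ≤ Λ) {r : ℝ} (hr : 0 ≤ r) (x : E n) :
    ‖ff K f r x - f x‖ ≤ Λ * r := by
  have h1 : f x = ∫ s, K.k s • f x := by rw [integral_smul_const, K.int, one_smul]
  have h2 : Integrable fun s => K.k s • f x := K.integrable.smul_const _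
  have h3 : ff K f r x - f x = ∫ s, K.k s • (f (x + r • s) - f x) := by
    unfold ff
    conv_lhs => rw [h1]
    rw [← integral_sub (k_int K hf x r) h2]
    congr 1
    funext s
    rw [smul_sub]
  rw [h3]
  calc ‖∫ s, K.k s • (f (x + r • s) - f x)‖ ≤ ∫ s, K.k s * (Λ * r) := by
        apply norm_integral_le_of_norm_le (K.integrable.mul_const _)
        apply Eventually.of_forall
        intro s
        rw [norm_smul, Real.norm_of_nonneg (K.nonneg s)]
        by_cases hs : K.k s = 0
        · rw [hs, zero_mul, zero_mul]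
        · apply mul_le_mul_of_nonneg_left _ (K.nonneg s)
          refine (hL _ _).trans (mul_le_mul_of_nonneg_left ?_ hΛ)
          rw [add_sub_cancel_left, norm_smul, Real.norm_of_nonneg hr]
          have := (K.lt hs).le
          nlinarith
    _ = Λ * r := by rw [integral_mul_const, K.int, one_mul]

theorem ff_lip {f : E n → E n} (hf : Continuous f) {Λ : ℝ}
    (hL : ∀ x y, ‖f x - f y‖ ≤ Λ * ‖x - y‖) (r : ℝ) (x y : E n) :
    ‖ff K f r x - ff K f r y‖ ≤ Λ * ‖x - y‖ := by
  have h3 : ff K f r x - ff K f r y = ∫ s, K.k s • (f (x + r • s) - f (y + r • s)) := by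
    unfold ff
    rw [← integral_sub (k_int K hf x r) (k_int K hf y r)]
    congr 1
    funext s
    rw [smul_sub]
  rw [h3]
  calc ‖∫ s, K.k s • (f (x + r • s) - f (y + r • s))‖ ≤ ∫ s, K.k s * (Λ * ‖x - y‖) := by
        apply norm_integral_le_of_norm_le (K.integrable.mul_const _)
        apply Eventually.of_forall
        intro s
        rw [norm_smul, Real.norm_of_nonneg (K.nonneg s)]
        apply mul_le_mul_of_nonneg_left _ (K.nonneg s)
        refine (hL _ _).trans (le_of_eq ?_)
        rw [add_sub_add_right_eq_sub]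
    _ = Λ * ‖x - y‖ := by rw [integral_mul_const, K.int, one_mul]

theorem ff_fderiv {f : E n → E n} (hf : Continuous f) {Λ : ℝ}
    (hL : ∀ x y, ‖f x - f y‖ ≤ Λ * ‖x - y‖) (hΛ : 0 ≤ Λ) (r : ℝ) (x : E n) :
    ‖fderiv ℝ (ff K f r) x‖ ≤ Λ := by
  have h1 : LipschitzWith ⟨Λ, hΛ⟩ (ff K f r) := LipschitzWith.of_dist_le_mul fun x y => by
    rw [dist_eq_norm, dist_eq_norm]
    exact ff_lip K hf hL r x y
  exact norm_fderiv_le_of_lipschitz ℝ h1

/-- convergence of the derivatives -/
theorem ff_der (hθ : 0 < θ) {f : E n → E n} (hf : Continuous f) {x : E n}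
    (hx : DifferentiableAt ℝ f x) {ε : ℝ} (hε : 0 < ε) :
    ∃ r₀ > 0, ∀ r, 0 < r → r < r₀ → ‖fderiv ℝ (ff K f r) x - fderiv ℝ f x‖ ≤
      ε * (Real.sqrt n / θ) := by
  obtain ⟨T, hT⟩ : ∃ T, T = fderiv ℝ f x := ⟨_, rfl⟩
  have h1 : HasFDerivAt f T x := by rw [hT]; exact hx.hasFDerivAt
  obtain ⟨r₀, hr₀, h2⟩ := Metric.eventually_nhds_iff_ball.1
    ((hasFDerivAt_iff_isLittleO.1 h1).def hε)
  refine ⟨r₀, hr₀, fun r hr hrr => ?_⟩
  obtain ⟨h, hh⟩ : ∃ h : E n → E n, h = fun y => f y - f x - T (y - x) := ⟨_, rfl⟩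
  have hhc : Continuous h := by
    rw [hh]
    exact (hf.sub continuous_const).sub (T.continuous.comp (by fun_prop))
  obtain ⟨D, hD, hDf⟩ := Pool.Agent.U211.BLV.moll_hasFDerivAt K
    (hhc.locallyIntegrable (μ := (volume : Measure (E n)))) hr x
  have hff : ff K f r = fun y => (∫ s, K.k s • h (y + r • s)) + (f x + T (y - x)) := by
    funext y
    have e1 : ∀ s, K.k s • f (y + r • s) = K.k s • h (y + r • s) +
        (K.k s • (f x + T (y - x)) + r • T (K.k s • s)) := by
      intro s
      rw [hh]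
      simp only
      rw [show y + r • s - x = (y - x) + r • s by abel, map_add, map_smul, map_smul]
      module
    have i1 : Integrable fun s => K.k s • (f x + T (y - x)) := K.integrable.smul_const _
    have i3 : Integrable fun s => K.k s • s := by
      apply Continuous.integrable_of_hasCompactSupport
      · exact K.cont.smul continuous_id
      · exact (compactSupport_of fun s hs => K.zero s hs.le).smul_right
    have i2 : Integrable fun s => r • T (K.k s • s) := (T.integrable_comp i3).smul r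
    have i12 : Integrable fun s => K.k s • (f x + T (y - x)) + r • T (K.k s • s) := i1.add i2
    unfold ff
    simp only [e1]
    rw [integral_add (k_int K hhc y r) i12, integral_add i1 i2, integral_smul_const, K.int,
      one_smul, integral_smul, T.integral_comp_comm i3, int_smul_id, map_zero, smul_zero, add_zero]
  have hd : HasFDerivAt (ff K f r) (D + T) x := by
    rw [hff]
    have e2 : HasFDerivAt (fun y => f x + T (y - x)) T x := by
      have := (T.hasFDerivAt.comp x ((hasFDerivAt_id x).sub_const x)).const_add (f x)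
      simpa using this
    exact hD.add e2
  rw [hd.fderiv, ← hT, add_sub_cancel_right]
  apply ContinuousLinearMap.opNorm_le_of_unit_norm (by positivity)
  intro w hw
  rw [hDf, norm_smul, norm_inv, Real.norm_of_nonneg hr.le, inv_mul_le_iff₀ hr]
  have i4 : Integrable fun s => K.g s * |(inner ℝ s w : ℝ)| := K.g_mul_integrable (by fun_prop)
  calc ‖∫ s, (K.g s * inner ℝ s w) • h (x + r • s)‖ ≤
      ∫ s, (ε * r) * (K.g s * |(inner ℝ s w : ℝ)|) := by
        apply norm_integral_le_of_norm_le (i4.const_mul _)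
        apply Eventually.of_forall
        intro s
        rw [norm_smul, norm_mul, Real.norm_of_nonneg (K.gnonneg s), Real.norm_eq_abs]
        by_cases hs : K.g s = 0
        · rw [hs]
          simp
        have hs1 : ‖s‖ ≤ 1 := by
          by_contra hc
          exact hs (K.gzero s (not_le.1 hc))
        have h3 : ‖r • s‖ ≤ r := by
          rw [norm_smul, Real.norm_of_nonneg hr.le]
          nlinarith
        have h4 : ‖h (x + r • s)‖ ≤ ε * r := by
          have h5 := h2 (x + r • s) (by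
            rw [mem_ball, dist_eq_norm, add_sub_cancel_left]
            linarith)
          rw [hh]
          simp only
          refine h5.trans ?_
          rw [add_sub_cancel_left]
          exact mul_le_mul_of_nonneg_left h3 hε.le
        have h6 : 0 ≤ K.g s * |(inner ℝ s w : ℝ)| := mul_nonneg (K.gnonneg s) (abs_nonneg _)
        calc K.g s * |(inner ℝ s w : ℝ)| * ‖h (x + r • s)‖ ≤
            K.g s * |(inner ℝ s w : ℝ)| * (ε * r) := mul_le_mul_of_nonneg_left h4 h6
          _ = _ := by ring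
    _ = (ε * r) * ∫ s, K.g s * |(inner ℝ s w : ℝ)| := integral_const_mul _ _
    _ ≤ (ε * r) * (Real.sqrt n / θ) :=
        mul_le_mul_of_nonneg_left (K.int_abs_le hθ hw) (by positivity)
    _ = r * (ε * (Real.sqrt n / θ)) := by ring

end Pool.Agent.U987.BE
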