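import Pool.Agent.U987.BE.A
import Pool.Agent.H945_Excise.Sobolev

/-!
# Approximation of homeomorphisms with small local distortion by diffeomorphisms
-/

set_option autoImplicit false
set_option linter.unusedSectionVars false

open Set Filter Topology Metric Function MeasureTheory
open scoped Manifold ContDiff NNReal ENNReal

noncomputable section

namespace Pool.Agent.U987.BE

open Pool.Agent.Y522 Pool.Agent.U987.BI
open Pool.Agent.U211.BL (Ker exists_ker compactSupport_of LD_of_pos)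

variable {n : ℕ}

theorem ff_id {θ : ℝ} (K : Ker n θ) {f : E n → E n} {R r : ℝ} (hr : 0 ≤ r)
    (hR : ∀ x, R ≤ ‖x‖ → f x = x) {x : E n} (hx : R + r ≤ ‖x‖) : ff K f r x = x := by
  have h1 : ∀ s, K.k s • f (x + r • s) = K.k s • ((x + r • s) + (fun _ => (0 : E n)) (x + r • s)) := by
    intro s
    by_cases hs : K.k s = 0
    · rw [hs, zero_smul, zero_smul]
    · have h2 : R ≤ ‖x + r • s‖ := by
        have h3 := norm_sub_le (x + r • s) (r • s)
        rw [add_sub_cancel_right, norm_smul, Real.norm_of_nonneg hr] at h3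
        have h4 := (K.lt hs).le
        nlinarith
      rw [hR _ h2]
      simp
  unfold ff
  simp only [h1]
  rw [mol_add K continuous_const]
  simp

/-- **Approximation by diffeomorphisms.** -/
theorem approx (hn : 0 < n) {ρ R : ℝ} (hρ : 1 ≤ ρ)
    (hc : (ρ ^ 2 - 1) * Real.sqrt n < 1 + ρ ^ 2) {f : E n → E n}
    (hR : ∀ x, R ≤ ‖x‖ → f x = x) (hf : Loc ρ f) :
    ∃ (Λ R' : ℝ) (g : ℕ → E n → E n), 0 ≤ Λ ∧ (∀ x y, ‖f x - f y‖ ≤ Λ * ‖x - y‖) ∧
      (∀ j, ContDiff ℝ ∞ (g j) ∧ Bijective (g j) ∧ ∀ x, LD n (g j) x) ∧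
      (∀ j x, R' ≤ ‖x‖ → g j x = x) ∧ (∀ (j : ℕ) x, ‖g j x - f x‖ ≤ Λ / (j + 1)) ∧
      (∀ j x, ‖fderiv ℝ (g j) x‖ ≤ Λ) ∧
      ∀ x, DifferentiableAt ℝ f x →
        Tendsto (fun j => fderiv ℝ (g j) x) atTop (𝓝 (fderiv ℝ f x)) := by
  obtain ⟨θ, hθ0, hθ1, hcθ⟩ : ∃ θ : ℝ, 0 < θ ∧ θ < 1 ∧
      (ρ ^ 2 - 1) * (Real.sqrt n / θ) < 1 + ρ ^ 2 := by
    have hcont : ContinuousAt (fun t : ℝ => (ρ ^ 2 - 1) * (Real.sqrt n / (1 - t))) 0 := by
      apply ContinuousAt.mul continuousAt_const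
      apply ContinuousAt.div continuousAt_const (by fun_prop)
      norm_num
    have h1 : ∀ᶠ t in 𝓝 (0 : ℝ), (ρ ^ 2 - 1) * (Real.sqrt n / (1 - t)) < 1 + ρ ^ 2 := by
      apply hcont.eventually_lt_const
      show (ρ ^ 2 - 1) * (Real.sqrt n / (1 - 0)) < 1 + ρ ^ 2
      simpa using hc
    have h2 : ∀ᶠ t in 𝓝[>] (0 : ℝ), t < 1 :=
      (gt_mem_nhds one_pos).filter_mono nhdsWithin_le_nhds
    obtain ⟨t, ⟨h2, h3⟩, h4⟩ := ((h1.filter_mono nhdsWithin_le_nhds).and h2).and
      self_mem_nhdsWithin |>.exists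
    have h5 : 0 < t := h4
    exact ⟨1 - t, by linarith, by linarith, h2⟩
  obtain ⟨K⟩ := exists_ker n hθ0 hθ1
  have hfc := hf.cont hρ
  obtain ⟨δ₀, Λ, hδ₀, hΛ, hloc, hL⟩ := uniform hn hρ hR hf
  obtain ⟨δ₁, hδ₁⟩ : ∃ δ₁, δ₁ = min (δ₀ / 2) 1 := ⟨_, rfl⟩
  have hδ₁0 : 0 < δ₁ := by rw [hδ₁]; positivity
  have hδ₁1 : δ₁ ≤ 1 := by rw [hδ₁]; exact min_le_right _ _
  have hδ₁2 : δ₁ < δ₀ := by
    have : δ₁ ≤ δ₀ / 2 := by rw [hδ₁]; exact min_le_left _ _
    linarith
  obtain ⟨r, hr⟩ : ∃ r : ℕ → ℝ, r = fun j : ℕ => δ₁ / ((j : ℝ) + 1) := ⟨_, rfl⟩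
  have hre : ∀ j, r j = δ₁ / ((j : ℝ) + 1) := fun j => by rw [hr]
  have hj1 : ∀ j : ℕ, (1 : ℝ) ≤ (j : ℝ) + 1 := fun j => by
    have : (0 : ℝ) ≤ j := Nat.cast_nonneg j
    linarith
  have hr0 : ∀ j, 0 < r j := fun j => by
    rw [hre]
    have := hj1 j
    positivity
  have hr1 : ∀ j, r j ≤ δ₁ := fun j => by
    rw [hre]
    exact div_le_self hδ₁0.le (hj1 j)
  have hr2 : ∀ j : ℕ, r j ≤ 1 / ((j : ℝ) + 1) := fun j => by
    rw [hre]
    have := hj1 j
    gcongr
  have hsm : ∀ j, ContDiff ℝ ∞ (ff K f (r j)) := fun j => ff_smooth K hfc (hr0 j)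
  have hld : ∀ j x, LD n (ff K f (r j)) x := by
    intro j x
    apply LD_of_pos (Eventually.of_forall fun y => (hsm j).contDiffAt)
    obtain ⟨a, ha, hab⟩ := hloc x
    obtain ⟨D, hD, hDf⟩ := Pool.Agent.U211.BLV.moll_hasFDerivAt K
      (hfc.locallyIntegrable (μ := (volume : Measure (E n)))) (hr0 j) x
    have hD' : fderiv ℝ (ff K f (r j)) x = D := hD.fderiv
    have hmem : ∀ p, ‖p - x‖ ≤ r j → p ∈ ball x δ₀ := by
      intro p hp
      rw [mem_ball, dist_eq_norm]
      exact lt_of_le_of_lt (hp.trans (hr1 j)) hδ₁2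
    intro w hw
    rw [hD']
    exact der_ne K hθ0 (H := f) (P := fun p => p) (z := x) (w := w) (δ := r j) (a := a) (ρ := ρ)
      (η := 0) (ξ := 0) (S := ContinuousLinearMap.id ℝ (E n)) (Q := ContinuousLinearMap.id ℝ (E n))
      hfc (hr0 j) ha hρ le_rfl zero_le_one le_rfl hw (fun v => le_rfl) rfl (fun v => rfl)
      (fun p q _ _ => by simp) (fun p q hp hq => (hab p (hmem p hp) q (hmem q hq)).1)
      (fun p q hp hq => (hab p (hmem p hp) q (hmem q hq)).2)
      (fun p q _ _ => by simp) (by linarith) hDf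
  have hid : ∀ j x, R + 1 ≤ ‖x‖ → ff K f (r j) x = x := fun j x hx =>
    ff_id K (hr0 j).le hR (by linarith [hr1 j])
  refine ⟨Λ, R + 1, fun j => ff K f (r j), hΛ, hL, fun j => ⟨hsm j, bij_of_ld (hld j) (hid j),
    hld j⟩, hid, fun j x => ?_, fun j x => ff_fderiv K hfc hL hΛ (r j) x, fun x hx => ?_⟩
  · refine (ff_close K hfc hL hΛ (hr0 j).le x).trans ?_
    calc Λ * r j ≤ Λ * (1 / ((j : ℝ) + 1)) := mul_le_mul_of_nonneg_left (hr2 j) hΛ
      _ = Λ / (j + 1) := by ring
  · rw [Metric.tendsto_atTop]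
    intro ε hε
    obtain ⟨q, hq⟩ : ∃ q, q = Real.sqrt n / θ := ⟨_, rfl⟩
    have hq0 : 0 ≤ q := by rw [hq]; positivity
    obtain ⟨r₀, hr₀, h⟩ := ff_der K hθ0 hfc hx (ε := ε / (q + 1) / 2) (by positivity)
    obtain ⟨N, hN⟩ := exists_nat_gt (δ₁ / r₀)
    refine ⟨N, fun j hj => ?_⟩
    have h1 : r j < r₀ := by
      rw [hre, div_lt_iff₀ (by linarith [hj1 j])]
      rw [div_lt_iff₀ hr₀] at hN
      have h2 : (N : ℝ) ≤ j := by exact_mod_cast hj
      nlinarith
    rw [dist_eq_norm]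
    refine lt_of_le_of_lt (h (r j) (hr0 j) h1) ?_
    rw [← hq]
    calc ε / (q + 1) / 2 * q = ε / 2 * (q / (q + 1)) := by field_simp
      _ ≤ ε / 2 * 1 := by
          apply mul_le_mul_of_nonneg_left _ (by positivity)
          rw [div_le_one (by linarith)]
          linarith
      _ < ε := by linarith

/-- **Approximation in the Sobolev norms.** -/
theorem sobolev {f : E n → E n} {Λ : ℝ} {g : ℕ → E n → E n} (hΛ : 0 ≤ Λ)
    (hL : ∀ x y, ‖f x - f y‖ ≤ Λ * ‖x - y‖)
    (hg : ∀ j, ContDiff ℝ ∞ (g j) ∧ Bijective (g j) ∧ ∀ x, LD n (g j) x)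
    (hcl : ∀ (j : ℕ) x, ‖g j x - f x‖ ≤ Λ / (j + 1))
    (hder : ∀ j x, ‖fderiv ℝ (g j) x‖ ≤ Λ)
    (hlim : ∀ x, DifferentiableAt ℝ f x →
        Tendsto (fun j => fderiv ℝ (g j) x) atTop (𝓝 (fderiv ℝ f x))) {p : ℝ} (hp : 1 ≤ p)
    {U : Set (E n)} (hU : IsOpen U) (hb : Bornology.IsBounded U) :
    Pool.Agent.H945.MemW1p p U f (fderiv ℝ f) ∧
      (∀ j, Pool.Agent.H945.IsDiffeoOn (g j) U ∧
        Pool.Agent.H945.MemW1p p U (g j) (fderiv ℝ (g j))) ∧
      Tendsto (fun j => Pool.Agent.H945.W1pDist p U (g j) (fderiv ℝ (g j)) f (fderiv ℝ f)) atTop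
        (𝓝 0) := by
  have hfL : LipschitzWith ⟨Λ, hΛ⟩ f := LipschitzWith.of_dist_le_mul fun x y => by
    rw [dist_eq_norm, dist_eq_norm]
    exact hL x y
  have hfc : Continuous f := hfL.continuous
  have hae : ∀ᵐ x ∂(volume : Measure (E n)), DifferentiableAt ℝ f x := hfL.ae_differentiableAt
  have hfd : ∀ x, ‖fderiv ℝ f x‖ ≤ Λ := fun x => norm_fderiv_le_of_lipschitz ℝ hfL
  obtain ⟨B, hB⟩ := hb.exists_norm_le
  have hfin : IsFiniteMeasure (volume.restrict U) :=
    ⟨by rw [Measure.restrict_apply_univ]; exact hb.measure_lt_top⟩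
  have hmem : ∀ {h : E n → E n}, Continuous h → MemLp h (ENNReal.ofReal p) (volume.restrict U) := by
    intro h hh
    obtain ⟨C, hC⟩ := (isCompact_closedBall (0 : E n) B).exists_bound_of_continuousOn hh.continuousOn
    refine MemLp.of_bound hh.aestronglyMeasurable C ?_
    refine ae_restrict_of_forall_mem hU.measurableSet fun x hx => hC x ?_
    rw [mem_closedBall_zero_iff]
    exact hB x hx
  have hmemd : ∀ {h : E n → E n}, (∀ x, ‖fderiv ℝ h x‖ ≤ Λ) →
      MemLp (fderiv ℝ h) (ENNReal.ofReal p) (volume.restrict U) := fun {h} hh =>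
    MemLp.of_bound (measurable_fderiv ℝ h).aestronglyMeasurable Λ (Eventually.of_forall hh)
  have hweak : Pool.Agent.H945.IsWeakDeriv U f (fderiv ℝ f) := by
    intro φ hφ hφc hφs v
    have h1 : ∀ j, ∫ x in U, φ x • fderiv ℝ (g j) x v = -∫ x in U, fderiv ℝ φ x v • g j x :=
      fun j => Pool.Agent.H945.weak_of_smooth hU (hg j).1.contDiffOn φ hφ hφc hφs v
    have hφi : Integrable φ (volume.restrict U) :=
      (hφ.continuous.integrable_of_hasCompactSupport hφc).restrict
    have hφd : Continuous fun x => fderiv ℝ φ x v :=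
      (hφ.continuous_fderiv (by simp)).clm_apply continuous_const
    have hφdc : HasCompactSupport fun x => fderiv ℝ φ x v := hφc.fderiv_apply ℝ v
    have t1 : Tendsto (fun j => ∫ x in U, φ x • fderiv ℝ (g j) x v) atTop
        (𝓝 (∫ x in U, φ x • fderiv ℝ f x v)) := by
      refine tendsto_integral_of_dominated_convergence (fun x => ‖φ x‖ * (Λ * ‖v‖))
        (fun j => ?_) (hφi.norm.mul_const _) (fun j => Eventually.of_forall fun x => ?_) ?_
      · exact (hφ.continuous.smul (((hg j).1.continuous_fderiv (by simp)).clm_apply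
          continuous_const)).aestronglyMeasurable
      · rw [norm_smul]
        apply mul_le_mul_of_nonneg_left _ (norm_nonneg _)
        exact ((fderiv ℝ (g j) x).le_opNorm v).trans
          (mul_le_mul_of_nonneg_right (hder j x) (norm_nonneg _))
      · refine ae_restrict_of_ae (hae.mono fun x hx => ?_)
        exact ((ContinuousLinearMap.apply ℝ (E n) v).continuous.tendsto _ |>.comp
          (hlim x hx)).const_smul (φ x)
    have t2 : Tendsto (fun j => ∫ x in U, fderiv ℝ φ x v • g j x) atTop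
        (𝓝 (∫ x in U, fderiv ℝ φ x v • f x)) := by
      refine tendsto_integral_of_dominated_convergence
        (fun x => ‖fderiv ℝ φ x v‖ * (‖f x‖ + Λ)) (fun j => ?_) ?_
        (fun j => Eventually.of_forall fun x => ?_) (Eventually.of_forall fun x => ?_)
      · exact (hφd.smul (hg j).1.continuous).aestronglyMeasurable
      · exact ((hφd.norm.mul (hfc.norm.add continuous_const)).integrable_of_hasCompactSupport
          hφdc.norm.mul_right).restrict
      · rw [norm_smul]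
        apply mul_le_mul_of_nonneg_left _ (norm_nonneg _)
        have h2 := hcl j x
        have h3 : Λ / ((j : ℝ) + 1) ≤ Λ := div_le_self hΛ (by
          have : (0 : ℝ) ≤ j := Nat.cast_nonneg j
          linarith)
        have h4 := norm_sub_norm_le (g j x) (f x)
        linarith
      · apply Tendsto.const_smul
        rw [tendsto_iff_norm_sub_tendsto_zero]
        refine squeeze_zero (fun j => norm_nonneg _) (fun j => hcl j x) ?_
        have := (tendsto_one_div_add_atTop_nhds_zero_nat (𝕜 := ℝ)).const_mul Λ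
        simpa [div_eq_mul_inv] using this
    have t3 := t2.neg
    simp only [← h1] at t3
    exact tendsto_nhds_unique t1 t3
  refine ⟨⟨hmem hfc, hmemd hfd, hweak⟩, fun j => ⟨?_, hmem (hg j).1.continuous,
    hmemd (hder j), fun φ hφ hφc hφs v => Pool.Agent.H945.weak_of_smooth hU (hg j).1.contDiffOn φ
      hφ hφc hφs v⟩, ?_⟩
  · obtain ⟨hs, H, hHs, hH1, hH2⟩ := smooth_inverse (hg j).2.1 (hg j).2.2
    refine ⟨hs.contDiffOn, ?_, H, hHs.contDiffOn, fun x _ => hH1 x⟩
    have h1 : g j '' U = H ⁻¹' U := by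
      ext y
      constructor
      · rintro ⟨x, hx, rfl⟩
        show H (g j x) ∈ U
        rwa [hH1 x]
      · intro hy
        exact ⟨H y, hy, hH2 y⟩
    rw [h1]
    exact hU.preimage hHs.continuous
  · have hp0 : ENNReal.ofReal p ≠ 0 := by
      rw [Ne, ENNReal.ofReal_eq_zero, not_le]
      linarith
    have hpt : ENNReal.ofReal p ≠ ⊤ := ENNReal.ofReal_ne_top
    have hpr : (ENNReal.ofReal p).toReal = p := ENNReal.toReal_ofReal (by linarith)
    have hpp : 0 < p := by linarith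
    have gen : ∀ {F : Type} [NormedAddCommGroup F] (h : ℕ → E n → F) (C : ℝ),
        (∀ j, AEStronglyMeasurable (h j) (volume.restrict U)) → (∀ j x, ‖h j x‖ ≤ C) →
        (∀ᵐ x ∂(volume.restrict U), Tendsto (fun j => h j x) atTop (𝓝 0)) →
        Tendsto (fun j => eLpNorm (h j) (ENNReal.ofReal p) (volume.restrict U)) atTop (𝓝 0) := by
      intro F _ h C hm hC ht
      have e1 : ∀ j, eLpNorm (h j) (ENNReal.ofReal p) (volume.restrict U) =
          (∫⁻ x in U, ‖h j x‖ₑ ^ p) ^ (1 / p) := by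
        intro j
        rw [eLpNorm_eq_lintegral_rpow_enorm_toReal hp0 hpt, hpr]
      simp only [e1]
      have e2 : Tendsto (fun j => ∫⁻ x in U, ‖h j x‖ₑ ^ p) atTop (𝓝 0) := by
        have e3 := tendsto_lintegral_of_dominated_convergence' (μ := volume.restrict U)
          (F := fun j x => ‖h j x‖ₑ ^ p) (f := fun _ => 0) (fun _ => ENNReal.ofReal C ^ p)
          (fun j => (hm j).enorm.pow_const p) (fun j => Eventually.of_forall fun x => ?_) ?_ ?_
        · simpa using e3
        · apply ENNReal.rpow_le_rpow _ hpp.le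
          rw [← ofReal_norm]
          exact ENNReal.ofReal_le_ofReal (hC j x)
        · rw [lintegral_const]
          exact ENNReal.mul_ne_top (ENNReal.rpow_ne_top_of_nonneg hpp.le ENNReal.ofReal_ne_top)
            (measure_ne_top _ _)
        · refine ht.mono fun x hx => ?_
          have e4 : Tendsto (fun j => ‖h j x‖ₑ) atTop (𝓝 0) := by
            have := (continuous_enorm.tendsto (0 : F)).comp hx
            rw [enorm_zero] at this
            exact this
          have e5 := (ENNReal.continuous_rpow_const (y := p)).tendsto 0 |>.comp e4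
          rw [ENNReal.zero_rpow_of_pos hpp] at e5
          exact e5
      have e6 := (ENNReal.continuous_rpow_const (y := 1 / p)).tendsto 0 |>.comp e2
      rw [ENNReal.zero_rpow_of_pos (by positivity)] at e6
      exact e6
    have a1 := gen (fun j x => g j x - f x) Λ
      (fun j => ((hg j).1.continuous.sub hfc).aestronglyMeasurable)
      (fun j x => (hcl j x).trans (div_le_self hΛ (by
          have : (0 : ℝ) ≤ j := Nat.cast_nonneg j
          linarith))) (Eventually.of_forall fun x => by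
        rw [tendsto_zero_iff_norm_tendsto_zero]
        refine squeeze_zero (fun j => norm_nonneg _) (fun j => hcl j x) ?_
        have := (tendsto_one_div_add_atTop_nhds_zero_nat (𝕜 := ℝ)).const_mul Λ
        simpa [div_eq_mul_inv] using this)
    have a2 := gen (fun j x => fderiv ℝ (g j) x - fderiv ℝ f x) (Λ + Λ)
      (fun j => ((measurable_fderiv ℝ (g j)).sub (measurable_fderiv ℝ f)).aestronglyMeasurable)
      (fun j x => (norm_sub_le _ _).trans (add_le_add (hder j x) (hfd x)))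
      (ae_restrict_of_ae (hae.mono fun x hx => by
        have := (hlim x hx).sub_const (fderiv ℝ f x)
        rwa [sub_self] at this))
    have a3 := a1.add a2
    rw [add_zero] at a3
    exact a3

end Pool.Agent.U987.BE
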