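import Pool.Agent.U987.BE.B

/-!
# Approximation by uniformly quasiconformal diffeomorphisms
-/

set_option autoImplicit false
set_option linter.unusedSectionVars false

open Set Filter Topology Metric Function MeasureTheory
open scoped Manifold ContDiff NNReal

noncomputable section

namespace Pool.Agent.U987.BE

open Pool.Agent.Y522 Pool.Agent.U987.BI
open Pool.Agent.U211.BL (Ker exists_ker compactSupport_of LD_of_pos rf rf_norm rf_add rf_smul_w)

variable {n : ℕ}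

/-- the lower bound for the derivative -/
theorem low {θ : ℝ} (K : Ker n θ) (hθ : 0 < θ) {f : E n → E n} (hf : Continuous f) {z : E n}
    {δ₀ a ρ r : ℝ} (ha : 0 < a) (hρ : 1 ≤ ρ)
    (hab : ∀ p ∈ ball z δ₀, ∀ q ∈ ball z δ₀,
      a * ‖p - q‖ ≤ ‖f p - f q‖ ∧ ‖f p - f q‖ ≤ ρ * (a * ‖p - q‖))
    (hr : 0 < r) (hrδ : r < δ₀) {D : E n →L[ℝ] E n}
    (hD : ∀ w, D w = r⁻¹ • ∫ s, (K.g s * inner ℝ s w) • f (z + r • s)) {w : E n} (hw : ‖w‖ = 1) :
    a * (1 + ρ ^ 2 - (ρ ^ 2 - 1) * (Real.sqrt n / θ)) / (2 * ρ) ≤ ‖D w‖ := by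
  have hmem : ∀ s : E n, ‖s‖ ≤ 1 → z + r • s ∈ ball z δ₀ := by
    intro s hs
    rw [mem_ball, dist_eq_norm, add_sub_cancel_left, norm_smul, Real.norm_of_nonneg hr.le]
    nlinarith
  have hwm : ‖-w‖ ≤ 1 := by rw [norm_neg, hw]
  obtain ⟨C, hC⟩ : ∃ C, C = f (z + r • w) := ⟨_, rfl⟩
  obtain ⟨F, hF⟩ : ∃ F, F = f (z + r • (-w)) := ⟨_, rfl⟩
  have hcmp : ∀ t u : E n, ‖(z + r • t) - (z + r • u)‖ = r * ‖t - u‖ := by
    intro t u
    have : (z + r • t) - (z + r • u) = r • (t - u) := by rw [smul_sub]; abel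
    rw [this, norm_smul, Real.norm_of_nonneg hr.le]
  have hptt : ∀ s : E n, ‖s‖ ≤ 1 → a ^ 2 * r ^ 2 * (2 * (1 + ρ ^ 2) * inner ℝ s w -
      2 * (ρ ^ 2 - 1)) ≤ inner ℝ (f (z + r • s) - f (z + r • rf w s)) (C - F) := by
    intro s hs
    have hs' : ‖rf w s‖ ≤ 1 := by rw [rf_norm hw]; exact hs
    obtain ⟨σ, hσ⟩ : ∃ σ : ℝ, σ = inner ℝ s w := ⟨_, rfl⟩
    have hx3 : ‖s + w‖ ≤ 3 := by
      have := norm_add_le s w
      linarith
    have hy3 : ‖s - w‖ ≤ 3 := by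
      have := norm_sub_le s w
      linarith
    have hx2 : ‖s + w‖ ^ 2 = ‖s‖ ^ 2 + 1 + 2 * σ := by
      rw [@norm_add_sq_real, hw, ← hσ]
      ring
    have hy2 : ‖s - w‖ ^ 2 = ‖s‖ ^ 2 + 1 - 2 * σ := by
      rw [@norm_sub_sq_real, hw, ← hσ]
      ring
    have hx' : ‖rf w s - w‖ = ‖s + w‖ := by
      have h1 : rf w s - w = rf w (s + w) := by
        have h2 := rf_smul_w hw 1
        rw [one_smul] at h2
        rw [rf_add, h2]
        abel
      rw [h1, rf_norm hw]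
    have hy' : ‖rf w s + w‖ = ‖s - w‖ := by
      have h1 : rf w s + w = rf w (s - w) := by
        have h2 := rf_smul_w hw (-1)
        rw [neg_one_smul, neg_neg] at h2
        rw [sub_eq_add_neg, rf_add, h2]
      rw [h1, rf_norm hw]
    have hq1 : ‖s‖ ^ 2 ≤ 1 := by nlinarith [norm_nonneg s]
    have k1 := (hab _ (hmem s hs) _ (hmem _ hwm)).1
    have k2 := (hab _ (hmem _ hs') _ (hmem _ hw.le)).1
    have k3 := (hab _ (hmem s hs) _ (hmem _ hw.le)).2
    have k4 := (hab _ (hmem _ hs') _ (hmem _ hwm)).2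
    rw [hcmp] at k1 k2 k3 k4
    rw [sub_neg_eq_add] at k1 k4
    rw [hx'] at k2
    rw [hy'] at k4
    have h4 := four (A := f (z + r • s)) (A' := f (z + r • rf w s)) (C := C)
      (F := F) (a := a) (h := r) (ρ := ρ) (η := 0) (x := ‖s + w‖) (y := ‖s - w‖)
      (q := ‖s‖ ^ 2) (σ := σ) ha hr hρ le_rfl zero_le_one (norm_nonneg _)
      (norm_nonneg _) hx3 hy3 hq1 hx2 hy2 (by rw [zero_mul, sub_zero, hF]; exact k1)
      (by rw [zero_mul, sub_zero, hC]; exact k2) (by rw [zero_mul, add_zero, hC]; exact k3)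
      (by rw [zero_mul, add_zero, hF]; exact k4)
    rw [← hσ]
    refine le_trans (le_of_eq ?_) h4
    ring
  have key := main_abs K hθ (G := f) (z := z) (w := w) (e := C - F) (h := r)
    (M := a ^ 2 * r ^ 2) (c₁ := 2 * (1 + ρ ^ 2)) (B := 2 * (ρ ^ 2 - 1)) hr hw hf.continuousOn
    (by positivity) (by nlinarith) hptt
  have hint : Integrable fun s => (K.g s * inner ℝ s w) • f (z + r • s) := by
    apply Continuous.integrable_of_hasCompactSupport
    · have h1 := K.gcont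
      fun_prop
    · apply HasCompactSupport.of_support_subset_isCompact (isCompact_closedBall (0 : E n) 1)
      intro s hs
      rw [mem_closedBall_zero_iff]
      by_contra h
      apply hs
      show (K.g s * inner ℝ s w) • f (z + r • s) = 0
      rw [K.gzero s (not_le.1 h), zero_mul, zero_smul]
  have h1 : inner ℝ (D w) (C - F) = r⁻¹ * ∫ s, K.g s * (inner ℝ s w * inner ℝ (f (z + r • s)) (C - F)) := by
    obtain ⟨L, hL⟩ : ∃ L : E n →L[ℝ] ℝ, L = innerSL ℝ (C - F) := ⟨_, rfl⟩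
    have hLe : ∀ v, L v = inner ℝ v (C - F) := fun v => by
      rw [hL, innerSL_apply_apply, real_inner_comm]
    rw [← hLe, hD, map_smul, ← L.integral_comp_comm hint, smul_eq_mul]
    congr 1
    congr 1
    funext s
    rw [map_smul, hLe, smul_eq_mul, mul_assoc]
  obtain ⟨q, hq⟩ : ∃ q : ℝ, q = Real.sqrt n / θ := ⟨_, rfl⟩
  rw [← hq] at key ⊢
  have hCF : ‖C - F‖ ≤ 2 * ρ * a * r := by
    have h2 := (hab _ (hmem w hw.le) _ (hmem _ hwm)).2
    rw [hcmp, ← hC, ← hF, sub_neg_eq_add, ← two_smul ℝ w, norm_smul, hw, Real.norm_two,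
      mul_one] at h2
    refine h2.trans (le_of_eq ?_)
    ring
  have h5 := real_inner_le_norm (D w) (C - F)
  have h6 : ‖D w‖ * ‖C - F‖ ≤ ‖D w‖ * (2 * ρ * a * r) :=
    mul_le_mul_of_nonneg_left hCF (norm_nonneg _)
  have h7 : a ^ 2 * r ^ 2 / 2 * (2 * (1 + ρ ^ 2) - 2 * (ρ ^ 2 - 1) * q) ≤
      r * (‖D w‖ * (2 * ρ * a * r)) := by
    have h8 : ∫ s, K.g s * (inner ℝ s w * inner ℝ (f (z + r • s)) (C - F)) =
        r * inner ℝ (D w) (C - F) := by
      rw [h1, ← mul_assoc, mul_inv_cancel₀ hr.ne', one_mul]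
    rw [h8] at key
    exact key.trans (mul_le_mul_of_nonneg_left (h5.trans h6) hr.le)
  rw [div_le_iff₀ (by positivity)]
  have h9 : (a * r ^ 2) * (a * (1 + ρ ^ 2 - (ρ ^ 2 - 1) * q)) ≤
      (a * r ^ 2) * (‖D w‖ * (2 * ρ)) := by
    calc (a * r ^ 2) * (a * (1 + ρ ^ 2 - (ρ ^ 2 - 1) * q)) =
          a ^ 2 * r ^ 2 / 2 * (2 * (1 + ρ ^ 2) - 2 * (ρ ^ 2 - 1) * q) := by ring
      _ ≤ r * (‖D w‖ * (2 * ρ * a * r)) := h7
      _ = (a * r ^ 2) * (‖D w‖ * (2 * ρ)) := by ring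
  exact le_of_mul_le_mul_left h9 (by positivity)

/-- the determinant of a map which is bounded below -/
theorem det_low {A : E n →L[ℝ] E n} {l : ℝ} (hl : 0 < l) (h : ∀ v, l * ‖v‖ ≤ ‖A v‖) :
    l ^ n ≤ |(A : E n →ₗ[ℝ] E n).det| := by
  have hinj : Injective A := by
    rw [injective_iff_map_eq_zero]
    intro v hv
    have h1 := h v
    rw [hv, norm_zero] at h1
    have h2 : ‖v‖ ≤ 0 := by
      by_contra h3
      push Not at h3
      nlinarith
    exact norm_le_zero_iff.1 h2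
  have hsur : Surjective (A : E n →ₗ[ℝ] E n) := LinearMap.injective_iff_surjective.1 hinj
  have hsub : closedBall (0 : E n) l ⊆ (A : E n →ₗ[ℝ] E n) '' closedBall 0 1 := by
    intro y hy
    obtain ⟨v, hv⟩ := hsur y
    refine ⟨v, ?_, hv⟩
    rw [mem_closedBall_zero_iff] at hy ⊢
    have h1 := h v
    have h2 : A v = y := hv
    rw [h2] at h1
    have h3 : l * ‖v‖ ≤ l * 1 := by linarith
    exact le_of_mul_le_mul_left h3 hl
  have h1 := measure_mono (μ := (volume : Measure (E n))) hsub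
  rw [Measure.addHaar_image_linearMap, Measure.addHaar_closedBall' _ _ hl.le,
    finrank_euclideanSpace, Fintype.card_fin] at h1
  have h2 : (volume : Measure (E n)) (closedBall 0 1) ≠ 0 :=
    (measure_closedBall_pos _ _ one_pos).ne'
  have h3 : (volume : Measure (E n)) (closedBall 0 1) ≠ ⊤ := measure_closedBall_lt_top.ne
  rw [ENNReal.mul_le_mul_iff_left h2 h3] at h1
  exact (ENNReal.ofReal_le_ofReal_iff (abs_nonneg _)).1 h1

/-- **Approximation by uniformly quasiconformal diffeomorphisms.** -/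
theorem approx_qc (hn : 0 < n) {ρ R : ℝ} (hρ : 1 ≤ ρ)
    (hc : (ρ ^ 2 - 1) * Real.sqrt n < 1 + ρ ^ 2) {f : E n → E n}
    (hR : ∀ x, R ≤ ‖x‖ → f x = x) (hf : Loc ρ f) {τ H : ℝ} (hτ : 0 < τ)
    (hH : 2 * ρ ^ 2 < H * (1 + ρ ^ 2 - (ρ ^ 2 - 1) * Real.sqrt n)) (hH0 : 0 < H) :
    ∃ (Λ : ℝ) (g : ℕ → E n → E n),
      (∀ j, ContDiff ℝ ∞ (g j) ∧ Bijective (g j) ∧ ∀ x, LD n (g j) x) ∧
      (∀ j x, R + τ ≤ ‖x‖ → g j x = x) ∧ (∀ (j : ℕ) x, ‖g j x - f x‖ ≤ Λ / (j + 1)) ∧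
      ∀ j x, ∃ l > 0, ‖fderiv ℝ (g j) x‖ ≤ H * l ∧ ∀ v, l * ‖v‖ ≤ ‖fderiv ℝ (g j) x v‖ := by
  obtain ⟨θ, hθ0, hθ1, hcθ, hHθ⟩ : ∃ θ : ℝ, 0 < θ ∧ θ < 1 ∧
      (ρ ^ 2 - 1) * (Real.sqrt n / θ) < 1 + ρ ^ 2 ∧
      2 * ρ ^ 2 < H * (1 + ρ ^ 2 - (ρ ^ 2 - 1) * (Real.sqrt n / θ)) := by
    have hcont : ContinuousAt (fun t : ℝ => (ρ ^ 2 - 1) * (Real.sqrt n / (1 - t))) 0 := by
      apply ContinuousAt.mul continuousAt_const
      apply ContinuousAt.div continuousAt_const (by fun_prop)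
      norm_num
    have h1 : ∀ᶠ t in 𝓝 (0 : ℝ), (ρ ^ 2 - 1) * (Real.sqrt n / (1 - t)) < 1 + ρ ^ 2 := by
      apply hcont.eventually_lt_const
      show (ρ ^ 2 - 1) * (Real.sqrt n / (1 - 0)) < 1 + ρ ^ 2
      simpa using hc
    have h1' : ∀ᶠ t in 𝓝 (0 : ℝ), 2 * ρ ^ 2 <
        H * (1 + ρ ^ 2 - (ρ ^ 2 - 1) * (Real.sqrt n / (1 - t))) := by
      have hcont2 : ContinuousAt (fun t : ℝ =>
          H * (1 + ρ ^ 2 - (ρ ^ 2 - 1) * (Real.sqrt n / (1 - t)))) 0 :=
        continuousAt_const.mul (continuousAt_const.sub hcont)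
      apply hcont2.eventually_const_lt
      show 2 * ρ ^ 2 < H * (1 + ρ ^ 2 - (ρ ^ 2 - 1) * (Real.sqrt n / (1 - 0)))
      simpa using hH
    have h2 : ∀ᶠ t in 𝓝[>] (0 : ℝ), t < 1 :=
      (gt_mem_nhds one_pos).filter_mono nhdsWithin_le_nhds
    obtain ⟨t, ⟨⟨h2, h2'⟩, h3⟩, h4⟩ := (((h1.and h1').filter_mono nhdsWithin_le_nhds).and h2).and
      self_mem_nhdsWithin |>.exists
    have h5 : 0 < t := h4
    exact ⟨1 - t, by linarith, by linarith, h2, h2'⟩
  obtain ⟨K⟩ := exists_ker n hθ0 hθ1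
  have hfc := hf.cont hρ
  obtain ⟨δ₀, Λ, hδ₀, hΛ, hloc, hL⟩ := uniform hn hρ hR hf
  obtain ⟨δ₁, hδ₁⟩ : ∃ δ₁, δ₁ = min (δ₀ / 2) (min 1 τ) := ⟨_, rfl⟩
  have hδ₁0 : 0 < δ₁ := by rw [hδ₁]; positivity
  have hδ₁1 : δ₁ ≤ 1 := by rw [hδ₁]; exact (min_le_right _ _).trans (min_le_left _ _)
  have hδ₁τ : δ₁ ≤ τ := by rw [hδ₁]; exact (min_le_right _ _).trans (min_le_right _ _)
  have hδ₁2 : δ₁ < δ₀ := by
    have : δ₁ ≤ δ₀ / 2 := by rw [hδ₁]; exact min_le_left _ _
    linarith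
  obtain ⟨r, hr⟩ : ∃ r : ℕ → ℝ, r = fun j : ℕ => δ₁ / ((j : ℝ) + 1) := ⟨_, rfl⟩
  have hre : ∀ j, r j = δ₁ / ((j : ℝ) + 1) := fun j => by rw [hr]
  have hj1 : ∀ j : ℕ, (1 : ℝ) ≤ (j : ℝ) + 1 := fun j => by
    have : (0 : ℝ) ≤ j := Nat.cast_nonneg j
    linarith
  have hr0 : ∀ j, 0 < r j := fun j => by
    rw [hre]
    have := hj1 j
    positivity
  have hr1 : ∀ j, r j ≤ δ₁ := fun j => by
    rw [hre]
    exact div_le_self hδ₁0.le (hj1 j)
  have hr2 : ∀ j : ℕ, r j ≤ 1 / ((j : ℝ) + 1) := fun j => by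
    rw [hre]
    have := hj1 j
    gcongr
  have hsm : ∀ j, ContDiff ℝ ∞ (ff K f (r j)) := fun j => ff_smooth K hfc (hr0 j)
  have hld : ∀ j x, LD n (ff K f (r j)) x := by
    intro j x
    apply LD_of_pos (Eventually.of_forall fun y => (hsm j).contDiffAt)
    obtain ⟨a, ha, hab⟩ := hloc x
    obtain ⟨D, hD, hDf⟩ := Pool.Agent.U211.BLV.moll_hasFDerivAt K
      (hfc.locallyIntegrable (μ := (volume : Measure (E n)))) (hr0 j) x
    have hD' : fderiv ℝ (ff K f (r j)) x = D := hD.fderiv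
    have hmem : ∀ p, ‖p - x‖ ≤ r j → p ∈ ball x δ₀ := by
      intro p hp
      rw [mem_ball, dist_eq_norm]
      exact lt_of_le_of_lt (hp.trans (hr1 j)) hδ₁2
    intro w hw
    rw [hD']
    exact der_ne K hθ0 (H := f) (P := fun p => p) (z := x) (w := w) (δ := r j) (a := a) (ρ := ρ)
      (η := 0) (ξ := 0) (S := ContinuousLinearMap.id ℝ (E n)) (Q := ContinuousLinearMap.id ℝ (E n))
      hfc (hr0 j) ha hρ le_rfl zero_le_one le_rfl hw (fun v => le_rfl) rfl (fun v => rfl)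
      (fun p q _ _ => by simp) (fun p q hp hq => (hab p (hmem p hp) q (hmem q hq)).1)
      (fun p q hp hq => (hab p (hmem p hp) q (hmem q hq)).2)
      (fun p q _ _ => by simp) (by linarith) hDf
  have hid : ∀ j x, R + τ ≤ ‖x‖ → ff K f (r j) x = x := fun j x hx =>
    ff_id K (hr0 j).le hR (by linarith [hr1 j])
  refine ⟨Λ, fun j => ff K f (r j), fun j => ⟨hsm j, bij_of_ld (hld j) (hid j),
    hld j⟩, hid, fun j x => ?_, fun j x => ?_⟩
  · refine (ff_close K hfc hL hΛ (hr0 j).le x).trans ?_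
    calc Λ * r j ≤ Λ * (1 / ((j : ℝ) + 1)) := mul_le_mul_of_nonneg_left (hr2 j) hΛ
      _ = Λ / (j + 1) := by ring
  · obtain ⟨a, ha, hab⟩ := hloc x
    obtain ⟨D, hD, hDf⟩ := Pool.Agent.U211.BLV.moll_hasFDerivAt K
      (hfc.locallyIntegrable (μ := (volume : Measure (E n)))) (hr0 j) x
    have hD' : fderiv ℝ (ff K f (r j)) x = D := hD.fderiv
    obtain ⟨q, hq⟩ : ∃ q, q = 1 + ρ ^ 2 - (ρ ^ 2 - 1) * (Real.sqrt n / θ) := ⟨_, rfl⟩
    have hq0 : 0 < q := by rw [hq]; linarith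
    rw [← hq] at hHθ
    have hlow : ∀ w, ‖w‖ = 1 → a * q / (2 * ρ) ≤ ‖D w‖ := by
      intro w hw
      rw [hq]
      exact low K hθ0 hfc ha hρ hab (hr0 j) (lt_of_le_of_lt (hr1 j) hδ₁2) hDf hw
    have hup : ‖D‖ ≤ ρ * a := by
      apply HasFDerivAt.le_of_lip' (f := ff K f (r j)) hD (by positivity)
      have h1 : ∀ᶠ y in 𝓝 x, ‖y - x‖ < δ₀ - r j := by
        have h2 := ball_mem_nhds x (sub_pos.2 (lt_of_le_of_lt (hr1 j) hδ₁2))
        filter_upwards [h2] with y hy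
        rwa [mem_ball, dist_eq_norm] at hy
      filter_upwards [h1] with y hy
      have h3 : ff K f (r j) y - ff K f (r j) x =
          ∫ s, K.k s • (f (y + r j • s) - f (x + r j • s)) := by
        unfold ff
        rw [← integral_sub (k_int K hfc y (r j)) (k_int K hfc x (r j))]
        congr 1
        funext s
        rw [smul_sub]
      show ‖ff K f (r j) y - ff K f (r j) x‖ ≤ _
      rw [h3]
      calc ‖∫ s, K.k s • (f (y + r j • s) - f (x + r j • s))‖ ≤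
          ∫ s, K.k s * (ρ * a * ‖y - x‖) := by
            apply norm_integral_le_of_norm_le (K.integrable.mul_const _)
            apply Eventually.of_forall
            intro s
            rw [norm_smul, Real.norm_of_nonneg (K.nonneg s)]
            by_cases hs : K.k s = 0
            · rw [hs, zero_mul, zero_mul]
            apply mul_le_mul_of_nonneg_left _ (K.nonneg s)
            have hs1 := (K.lt hs).le
            have h4 : ‖r j • s‖ ≤ r j := by
              rw [norm_smul, Real.norm_of_nonneg (hr0 j).le]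
              have := (hr0 j).le
              nlinarith
            have m1 : y + r j • s ∈ ball x δ₀ := by
              rw [mem_ball, dist_eq_norm, show y + r j • s - x = (y - x) + r j • s by abel]
              have := norm_add_le (y - x) (r j • s)
              linarith
            have m2 : x + r j • s ∈ ball x δ₀ := by
              rw [mem_ball, dist_eq_norm, add_sub_cancel_left]
              exact lt_of_le_of_lt (h4.trans (hr1 j)) hδ₁2
            refine ((hab _ m1 _ m2).2).trans (le_of_eq ?_)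
            rw [add_sub_add_right_eq_sub]
            ring
        _ = ρ * a * ‖y - x‖ := by rw [integral_mul_const, K.int, one_mul]
    refine ⟨a * q / (2 * ρ), by positivity, ?_, ?_⟩
    · show ‖fderiv ℝ (ff K f (r j)) x‖ ≤ _
      rw [hD']
      refine hup.trans ?_
      have h5 : ρ * a * (2 * ρ) ≤ H * (a * q) := by nlinarith
      rw [← mul_div_assoc, le_div_iff₀ (by positivity)]
      exact h5
    · intro v
      show _ ≤ ‖fderiv ℝ (ff K f (r j)) x v‖
      rw [hD']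
      rcases eq_or_ne v 0 with hv | hv
      · rw [hv]
        simp
      · have hv0 : 0 < ‖v‖ := norm_pos_iff.2 hv
        have h6 := hlow (‖v‖⁻¹ • v) (by
          rw [norm_smul, norm_inv, norm_norm, inv_mul_cancel₀ hv0.ne'])
        rw [map_smul, norm_smul, norm_inv, norm_norm, le_inv_mul_iff₀ hv0] at h6
        linarith

/-- a diffeomorphism which is the identity off a ball preserves the orientation -/
theorem det_pos (hn : 0 < n) {g : E n → E n} {s : ℝ} (hg : ContDiff ℝ ∞ g)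
    (hid : ∀ x, s ≤ ‖x‖ → g x = x) (h0 : ∀ x, (fderiv ℝ g x).det ≠ 0) (x : E n) :
    0 < (fderiv ℝ g x).det := by
  have hc : Continuous fun x => (fderiv ℝ g x).det :=
    ContinuousLinearMap.continuous_det.comp (hg.continuous_fderiv (by simp))
  have : Nontrivial (E n) := by
    have : Nonempty (Fin n) := ⟨⟨0, hn⟩⟩
    infer_instance
  obtain ⟨y, hy⟩ := exists_norm_eq (E n) (c := |s| + 1) (by positivity)
  have h1 : (fderiv ℝ g y).det = 1 := by
    have h2 : g =ᶠ[𝓝 y] id := by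
      have h3 : ∀ᶠ z in 𝓝 y, |s| < ‖z‖ :=
        continuous_norm.continuousAt.eventually_const_lt (by linarith)
      filter_upwards [h3] with z hz
      exact hid z ((le_abs_self s).trans hz.le)
    rw [h2.fderiv_eq, fderiv_id]
    exact LinearMap.det_id
  by_contra hx
  push Not at hx
  obtain ⟨z, hz⟩ := mem_range_of_exists_le_of_exists_ge hc ⟨x, hx⟩ ⟨y, by rw [h1]; norm_num⟩
  exact h0 z hz

end Pool.Agent.U987.BE
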