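import Pool.Agent.U987.BE.C
import Mathlib.Topology.Homotopy.Lifting

/-!
# Homeomorphisms of `ℝⁿ` of small distortion at a uniform scale
-/

set_option autoImplicit false
set_option linter.unusedSectionVars false

open Set Filter Topology Metric Function MeasureTheory
open scoped Manifold ContDiff NNReal

noncomputable section

namespace Pool.Agent.U987.BE

open Pool.Agent.Y522 Pool.Agent.U987.BI
open Pool.Agent.U211.BL (Ker exists_ker compactSupport_of LD_of_pos rf rf_norm rf_add rf_smul_w)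

variable {n : ℕ}

/-- a proper local diffeomorphism of `ℝⁿ` is bijective -/
theorem bij_proper {g : E n → E n} (hg : ∀ x, LD n g x) (hc : Continuous g)
    (hp : ∀ B : ℝ, ∃ R : ℝ, ∀ x, ‖g x‖ ≤ B → ‖x‖ ≤ R) : Bijective g := by
  have hpre : ∀ K : Set (E n), IsCompact K → IsCompact (g ⁻¹' K) := by
    intro K hK
    obtain ⟨B, hB⟩ := hK.isBounded.exists_norm_le
    obtain ⟨R, hR⟩ := hp B
    refine (isCompact_closedBall (0 : E n) R).of_isClosed_subset (hK.isClosed.preimage hc) ?_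
    intro x hx
    rw [mem_closedBall_zero_iff]
    exact hR x (hB _ hx)
  have hprop : IsProperMap g := isProperMap_iff_isCompact_preimage.2 ⟨hc, fun K hK => hpre K hK⟩
  have hloc : IsLocalHomeomorph g := by
    apply IsLocalHomeomorph.mk
    intro x
    obtain ⟨Φ, hx, heq⟩ := hg x
    exact ⟨Φ.toOpenPartialHomeomorph, hx, heq⟩
  have hfin : ∀ y ∈ (univ : Set (E n)), (g ⁻¹' {y}).Finite := by
    intro y _
    by_contra hinf
    obtain ⟨x, hx, hacc⟩ := Set.Infinite.exists_accPt_of_subset_isCompact hinf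
      (hpre _ isCompact_singleton) subset_rfl
    obtain ⟨Φ, hxs, heq⟩ := hg x
    rw [accPt_iff_nhds] at hacc
    obtain ⟨z, ⟨hz1, hz2⟩, hz3⟩ := hacc _ (Φ.open_source.mem_nhds hxs)
    have h1 : g z = g x := by
      have a1 : g z = y := hz2
      have a2 : g x = y := hx
      rw [a1, a2]
    rw [heq hz1, heq hxs] at h1
    have h2 := congrArg Φ.invFun h1
    exact hz3 (Φ.toOpenPartialHomeomorph.injOn hz1 hxs h1)
  have cov : IsCoveringMap g := isCoveringMap_iff_isCoveringMapOn_univ.2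
    (hprop.isClosedMap.isCoveringMapOn_of_isLocalHomeomorphOn hfin
      (by rw [preimage_univ]; exact isLocalHomeomorph_iff_isLocalHomeomorphOn_univ.1 hloc))
  obtain ⟨F, ⟨hF0, hF⟩, -⟩ := cov.existsUnique_continuousMap_lifts (ContinuousMap.id (E n))
    (g 0) 0 rfl
  have h1 : ∀ y, g (F y) = y := fun y => congrFun hF y
  have h2 : F ∘ g = id := by
    apply cov.eq_of_comp_eq (F.continuous.comp hc) continuous_id (by
      funext x
      exact h1 (g x)) 0
    exact hF0
  exact ⟨fun x y hxy => by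
    have a1 := congrFun h2 x
    have a2 := congrFun h2 y
    simp only [comp_apply, id_eq] at a1 a2
    rw [← a1, ← a2, hxy], fun y => ⟨F y, h1 y⟩⟩

/-- **Approximation of homeomorphisms by diffeomorphisms.** -/
theorem approx_hom (hn : 0 < n) {ρ δ₀ : ℝ} (hρ : 1 ≤ ρ)
    (hc : (ρ ^ 2 - 1) * Real.sqrt n < 1 + ρ ^ 2) (f : E n ≃ₜ E n) (hδ₀ : 0 < δ₀)
    (hloc : ∀ x, ∃ a > 0, ∀ p ∈ ball x δ₀, ∀ q ∈ ball x δ₀,
      a * ‖p - q‖ ≤ ‖f p - f q‖ ∧ ‖f p - f q‖ ≤ ρ * (a * ‖p - q‖)) :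
    ∃ g : ℕ → E n → E n,
      (∀ j, ContDiff ℝ ∞ (g j) ∧ Bijective (g j) ∧ ∀ x, LD n (g j) x) ∧
      (∀ j x, ‖f.symm (g j x) - x‖ < 1 / (j + 1)) ∧
      ∀ B : ℝ, ∃ C, ∀ (j : ℕ) x, ‖x‖ ≤ B → ‖g j x - f x‖ ≤ C / (j + 1) := by
  obtain ⟨θ, hθ0, hθ1, hcθ⟩ : ∃ θ : ℝ, 0 < θ ∧ θ < 1 ∧
      (ρ ^ 2 - 1) * (Real.sqrt n / θ) < 1 + ρ ^ 2 := by
    have hcont : ContinuousAt (fun t : ℝ => (ρ ^ 2 - 1) * (Real.sqrt n / (1 - t))) 0 := by
      apply ContinuousAt.mul continuousAt_const
      apply ContinuousAt.div continuousAt_const (by fun_prop)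
      norm_num
    have h1 : ∀ᶠ t in 𝓝 (0 : ℝ), (ρ ^ 2 - 1) * (Real.sqrt n / (1 - t)) < 1 + ρ ^ 2 := by
      apply hcont.eventually_lt_const
      show (ρ ^ 2 - 1) * (Real.sqrt n / (1 - 0)) < 1 + ρ ^ 2
      simpa using hc
    have h2 : ∀ᶠ t in 𝓝[>] (0 : ℝ), t < 1 :=
      (gt_mem_nhds one_pos).filter_mono nhdsWithin_le_nhds
    obtain ⟨t, ⟨h2, h3⟩, h4⟩ := ((h1.filter_mono nhdsWithin_le_nhds).and h2).and
      self_mem_nhdsWithin |>.exists
    have h5 : 0 < t := h4
    exact ⟨1 - t, by linarith, by linarith, h2⟩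
  obtain ⟨K⟩ := exists_ker n hθ0 hθ1
  have hfc : Continuous f := f.continuous
  have hρ0 : 0 < ρ := by linarith
  obtain ⟨δ₁, hδ₁⟩ : ∃ δ₁, δ₁ = min (δ₀ / 2) 1 / (2 * ρ) := ⟨_, rfl⟩
  have hm0 : 0 < min (δ₀ / 2) 1 := lt_min (by positivity) one_pos
  have hδ₁0 : 0 < δ₁ := by rw [hδ₁]; positivity
  have hδ₁e : 2 * ρ * δ₁ = min (δ₀ / 2) 1 := by rw [hδ₁]; field_simp
  have hδ₁a : 2 * ρ * δ₁ ≤ δ₀ / 2 := by rw [hδ₁e]; exact min_le_left _ _
  have hδ₁b : 2 * ρ * δ₁ ≤ 1 := by rw [hδ₁e]; exact min_le_right _ _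
  have hδρ : δ₁ ≤ ρ * δ₁ := le_mul_of_one_le_left hδ₁0.le hρ
  have hδ₁2 : δ₁ < δ₀ := by nlinarith
  obtain ⟨r, hr⟩ : ∃ r : ℕ → ℝ, r = fun j : ℕ => δ₁ / ((j : ℝ) + 1) := ⟨_, rfl⟩
  have hre : ∀ j, r j = δ₁ / ((j : ℝ) + 1) := fun j => by rw [hr]
  have hj1 : ∀ j : ℕ, (1 : ℝ) ≤ (j : ℝ) + 1 := fun j => by
    have : (0 : ℝ) ≤ j := Nat.cast_nonneg j
    linarith
  have hr0 : ∀ j, 0 < r j := fun j => by
    rw [hre]
    have := hj1 j
    positivity
  have hr1 : ∀ j, r j ≤ δ₁ := fun j => by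
    rw [hre]
    exact div_le_self hδ₁0.le (hj1 j)
  have hsm : ∀ j, ContDiff ℝ ∞ (ff K f (r j)) := fun j => ff_smooth K hfc (hr0 j)
  have hld : ∀ j x, LD n (ff K f (r j)) x := by
    intro j x
    apply LD_of_pos (Eventually.of_forall fun y => (hsm j).contDiffAt)
    obtain ⟨a, ha, hab⟩ := hloc x
    obtain ⟨D, hD, hDf⟩ := Pool.Agent.U211.BLV.moll_hasFDerivAt K
      (hfc.locallyIntegrable (μ := (volume : Measure (E n)))) (hr0 j) x
    have hD' : fderiv ℝ (ff K f (r j)) x = D := hD.fderiv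
    have hmem : ∀ p, ‖p - x‖ ≤ r j → p ∈ ball x δ₀ := by
      intro p hp
      rw [mem_ball, dist_eq_norm]
      exact lt_of_le_of_lt (hp.trans (hr1 j)) hδ₁2
    intro w hw
    rw [hD']
    exact der_ne K hθ0 (H := f) (P := fun p => p) (z := x) (w := w) (δ := r j) (a := a) (ρ := ρ)
      (η := 0) (ξ := 0) (S := ContinuousLinearMap.id ℝ (E n)) (Q := ContinuousLinearMap.id ℝ (E n))
      hfc (hr0 j) ha hρ le_rfl zero_le_one le_rfl hw (fun v => le_rfl) rfl (fun v => rfl)
      (fun p q _ _ => by simp) (fun p q hp hq => (hab p (hmem p hp) q (hmem q hq)).1)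
      (fun p q hp hq => (hab p (hmem p hp) q (hmem q hq)).2)
      (fun p q _ _ => by simp) (by linarith) hDf
  have hcl : ∀ j x a, 0 < a → (∀ p ∈ ball x δ₀, ∀ q ∈ ball x δ₀,
      a * ‖p - q‖ ≤ ‖f p - f q‖ ∧ ‖f p - f q‖ ≤ ρ * (a * ‖p - q‖)) →
      ‖ff K f (r j) x - f x‖ ≤ ρ * (a * r j) := by
    intro j x a ha hab
    have h1 : f x = ∫ s, K.k s • f x := by rw [integral_smul_const, K.int, one_smul]
    have h2 : Integrable fun s => K.k s • f x := K.integrable.smul_const _
    have h3 : ff K f (r j) x - f x = ∫ s, K.k s • (f (x + r j • s) - f x) := by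
      unfold ff
      conv_lhs => rw [h1]
      rw [← integral_sub (k_int K hfc x (r j)) h2]
      congr 1
      funext s
      rw [smul_sub]
    rw [h3]
    calc ‖∫ s, K.k s • (f (x + r j • s) - f x)‖ ≤ ∫ s, K.k s * (ρ * (a * r j)) := by
          apply norm_integral_le_of_norm_le (K.integrable.mul_const _)
          apply Eventually.of_forall
          intro s
          rw [norm_smul, Real.norm_of_nonneg (K.nonneg s)]
          by_cases hs : K.k s = 0
          · rw [hs, zero_mul, zero_mul]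
          · apply mul_le_mul_of_nonneg_left _ (K.nonneg s)
            have hs1 := (K.lt hs).le
            have h4 : ‖r j • s‖ ≤ r j := by
              rw [norm_smul, Real.norm_of_nonneg (hr0 j).le]
              have := (hr0 j).le
              nlinarith
            have m2 : x + r j • s ∈ ball x δ₀ := by
              rw [mem_ball, dist_eq_norm, add_sub_cancel_left]
              exact lt_of_le_of_lt (h4.trans (hr1 j)) hδ₁2
            refine ((hab _ m2 _ (mem_ball_self hδ₀)).2).trans ?_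
            rw [add_sub_cancel_left]
            gcongr
      _ = ρ * (a * r j) := by rw [integral_mul_const, K.int, one_mul]
  have hsymm : ∀ j x, ‖f.symm (ff K f (r j) x) - x‖ < 2 * ρ * r j := by
    intro j x
    obtain ⟨a, ha, hab⟩ := hloc x
    obtain ⟨R, hR⟩ : ∃ R, R = 2 * ρ * r j := ⟨_, rfl⟩
    rw [← hR]
    have hR0 : 0 < R := by rw [hR]; have := hr0 j; positivity
    have hRδ : R < δ₀ := by
      have h5 : 2 * ρ * r j ≤ 2 * ρ * δ₁ := mul_le_mul_of_nonneg_left (hr1 j) (by positivity)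
      linarith
    have hsub : ball (f x) (a * R) ⊆ f '' ball x R := by
      apply (convex_ball (f x) (a * R)).isPreconnected.subset_of_closure_inter_subset
        (f.isOpenMap _ isOpen_ball)
      · exact ⟨f x, mem_ball_self (by positivity), x, mem_ball_self hR0, rfl⟩
      · rintro y ⟨hy1, hy2⟩
        rw [← f.image_closure, closure_ball _ hR0.ne'] at hy1
        obtain ⟨q, hq, rfl⟩ := hy1
        refine ⟨q, ?_, rfl⟩
        have hq' : q ∈ ball x δ₀ := (mem_closedBall.1 hq).trans_lt hRδ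
        have h6 := (hab q hq' x (mem_ball_self hδ₀)).1
        rw [mem_ball, dist_eq_norm] at hy2 ⊢
        exact lt_of_mul_lt_mul_left (h6.trans_lt hy2) ha.le
    have hin : ff K f (r j) x ∈ ball (f x) (a * R) := by
      rw [mem_ball, dist_eq_norm]
      refine (hcl j x a ha hab).trans_lt ?_
      rw [hR]
      have h7 : 0 < ρ * (a * r j) := by have := hr0 j; positivity
      nlinarith
    obtain ⟨q, hq, hqe⟩ := hsub hin
    rw [← hqe, f.symm_apply_apply, ← dist_eq_norm]
    exact hq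
  have hbij : ∀ j, Bijective (ff K f (r j)) := by
    intro j
    refine bij_proper (hld j) (hsm j).continuous fun B => ?_
    obtain ⟨M, hM⟩ := ((isCompact_closedBall (0 : E n) B).image f.symm.continuous).isBounded.exists_norm_le
    refine ⟨M + 2 * ρ * r j, fun x hx => ?_⟩
    have h1 := hM (f.symm (ff K f (r j) x)) ⟨_, by rwa [mem_closedBall_zero_iff], rfl⟩
    have h2 := hsymm j x
    have h3 := norm_sub_norm_le x (f.symm (ff K f (r j) x))
    rw [norm_sub_rev] at h3
    linarith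
  refine ⟨fun j => ff K f (r j), fun j => ⟨hsm j, hbij j, hld j⟩, fun j x => ?_, fun B => ?_⟩
  · refine (hsymm j x).trans_le ?_
    rw [hre, ← mul_div_assoc]
    have := hj1 j
    gcongr
  · obtain ⟨M, hM⟩ := (isCompact_closedBall (0 : E n) (B + δ₀)).exists_bound_of_continuousOn
      hfc.continuousOn
    have : Nontrivial (E n) := by
      have : Nonempty (Fin n) := ⟨⟨0, hn⟩⟩
      infer_instance
    obtain ⟨u, hu⟩ := exists_norm_eq (E n) (zero_le_one (α := ℝ))
    refine ⟨ρ * (2 * M / (δ₀ / 2) * δ₁), fun j x hx => ?_⟩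
    obtain ⟨a, ha, hab⟩ := hloc x
    refine (hcl j x a ha hab).trans ?_
    have h1 : x + (δ₀ / 2) • u ∈ ball x δ₀ := by
      rw [mem_ball, dist_eq_norm, add_sub_cancel_left, norm_smul, hu,
        Real.norm_of_nonneg (by positivity)]
      linarith
    have h2 := (hab _ h1 x (mem_ball_self hδ₀)).1
    rw [add_sub_cancel_left, norm_smul, hu, Real.norm_of_nonneg (by positivity), mul_one] at h2
    have h3 := norm_sub_le (f (x + (δ₀ / 2) • u)) (f x)
    have h4 := hM x (by rw [mem_closedBall_zero_iff]; linarith)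
    have h5 := hM (x + (δ₀ / 2) • u) (by
      rw [mem_closedBall_zero_iff]
      have := norm_add_le x ((δ₀ / 2) • u)
      rw [norm_smul, hu, Real.norm_of_nonneg (by positivity)] at this
      linarith)
    have h6 : a ≤ 2 * M / (δ₀ / 2) := by
      rw [le_div_iff₀ (by positivity)]
      linarith
    rw [hre, mul_div_assoc, mul_div_assoc]
    have := hj1 j
    gcongr

end Pool.Agent.U987.BE
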